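import Mathlib

set_option autoImplicit false

namespace Pool.Agent.Results.MP_22e672_co.Counter

/-- boundary points of `P` lying in no `i`-dimensional face -/
def Xset {d : ℕ} (P : Set (Fin d → ℝ)) (i : ℕ) : Set (Fin d → ℝ) :=
  {b | b ∈ frontier P ∧ ¬ ∃ F : Set (Fin d → ℝ), IsExposed ℝ P F ∧
    Module.finrank ℝ (affineSpan ℝ F).direction = i ∧ b ∈ F}

/-- the source `s` illuminates `b` -/
def Illum {d : ℕ} (P : Set (Fin d → ℝ)) (s b : Fin d → ℝ) : Prop :=
  (∃ t : ℝ, 0 ≤ t ∧ s + t • (b - s) ∈ interior P) ∧ ∀ x ∈ segment ℝ s b, x ∈ P → x = b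

def cube : Set (Fin 4 → ℝ) := Set.univ.pi (fun _ => Set.Icc (0 : ℝ) 1)

theorem mem_cube {x : Fin 4 → ℝ} : x ∈ cube ↔ ∀ j, 0 ≤ x j ∧ x j ≤ 1 := by
  simp only [cube, Set.mem_pi, Set.mem_univ, true_implies, Set.mem_Icc]

theorem mem_int {x : Fin 4 → ℝ} : x ∈ interior cube ↔ ∀ j, 0 < x j ∧ x j < 1 := by
  rw [cube, interior_pi_set Set.finite_univ]
  simp only [interior_Icc, Set.mem_pi, Set.mem_univ, true_implies, Set.mem_Ioo]

theorem cube_eq : convexHull ℝ
    ((Fintype.piFinset (fun _ : Fin 4 => ({0, 1} : Finset ℝ)) : Finset (Fin 4 → ℝ)) :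
      Set (Fin 4 → ℝ)) = cube := by
  rw [Fintype.coe_piFinset, convexHull_pi, cube]
  congr 1
  funext _
  rw [Finset.coe_pair, convexHull_pair, segment_eq_Icc zero_le_one]

set_option synthInstance.maxSize 4096 in
theorem key : ∀ w : Fin 4 → Bool, w 0 = false → w 1 = false →
    ∀ x : Fin 4 → Bool, x 0 = false → x 1 = true →
    ∀ y : Fin 4 → Bool, y 0 = true → y 1 = false →
    ∀ z : Fin 4 → Bool, z 0 = true → z 1 = true →
    ¬ ∀ j k : Fin 4, j ≠ k → ∀ a b : Bool, (w j = a ∧ w k = b) ∨ (x j = a ∧ x k = b) ∨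
      (y j = a ∧ y k = b) ∨ (z j = a ∧ z k = b) := by decide +kernel

theorem two : ∀ j k : Fin 4, ∃ p q : Fin 4, p ≠ q ∧ p ≠ j ∧ p ≠ k ∧ q ≠ j ∧ q ≠ k := by decide

noncomputable def pt (j k : Fin 4) (a b : Bool) : Fin 4 → ℝ :=
  fun i => if i = j then (if a then 1 else 0) else if i = k then (if b then 1 else 0) else 1 / 2

theorem pt_mem (j k : Fin 4) (a b : Bool) : pt j k a b ∈ cube := by
  rw [mem_cube]
  intro i
  unfold pt
  split_ifs <;> norm_num

theorem pt_X (j k : Fin 4) (a b : Bool) : pt j k a b ∈ Xset cube 1 := by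
  constructor
  · refine ⟨subset_closure (pt_mem j k a b), fun h => ?_⟩
    have := mem_int.1 h j
    cases a <;> simp [pt] at this
  · rintro ⟨F, hF, hdim, hb⟩
    obtain ⟨l, hl⟩ := hF ⟨_, hb⟩
    have dir : ∀ p, p ≠ j → p ≠ k →
        (Pi.single p (1 / 2 : ℝ) : Fin 4 → ℝ) ∈ (affineSpan ℝ F).direction := by
      intro p h1 h2
      have hm : ∀ c : ℝ, c = 1 ∨ c = -1 →
          pt j k a b + c • (Pi.single p (1 / 2 : ℝ) : Fin 4 → ℝ) ∈ cube := by
        intro c hc
        rw [mem_cube]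
        intro i
        by_cases hi : i = p
        · subst hi
          rcases hc with rfl | rfl <;> simp [pt, h1, h2] <;> norm_num
        · have := mem_cube.1 (pt_mem j k a b) i
          simpa [hi] using this
      have hb2 := hb
      rw [hl] at hb2
      have e1 := hb2.2 _ (hm 1 (Or.inl rfl))
      have e2 := hb2.2 _ (hm (-1) (Or.inr rfl))
      rw [map_add, map_smul, smul_eq_mul] at e1 e2
      have hin : pt j k a b + (1 : ℝ) • (Pi.single p (1 / 2 : ℝ) : Fin 4 → ℝ) ∈ F := by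
        rw [hl]
        refine ⟨hm 1 (Or.inl rfl), fun y hy => ?_⟩
        have := hb2.2 y hy
        rw [map_add, map_smul, smul_eq_mul]
        linarith
      have := AffineSubspace.vsub_mem_direction (subset_affineSpan ℝ F hin)
        (subset_affineSpan ℝ F hb)
      simpa using this
    obtain ⟨p, q, hpq, h1, h2, h3, h4⟩ := two j k
    have hne : (⟨_, dir p h1 h2⟩ : (affineSpan ℝ F).direction) ≠ 0 := by
      intro h
      have := congrFun (congrArg Subtype.val h) p
      simp at this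
    obtain ⟨c, hc⟩ := (finrank_eq_one_iff_of_nonzero' _ hne).1 hdim ⟨_, dir q h3 h4⟩
    have := congrFun (congrArg Subtype.val hc) q
    simp [hpq.symm] at this

theorem side {s b : Fin 4 → ℝ} (h : Illum cube s b) (j : Fin 4) (a : Bool)
    (hb : b j = if a then 1 else 0) : decide (1 / 2 < s j) = a := by
  obtain ⟨⟨t, ht, hi⟩, h2⟩ := h
  have h3 := mem_int.1 hi j
  have h1 : 1 < t := by
    by_contra hc
    have hs : s + t • (b - s) ∈ segment ℝ s b := by
      rw [segment_eq_image']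
      exact ⟨t, ⟨ht, not_lt.1 hc⟩, rfl⟩
    rw [h2 _ hs (interior_subset hi), hb] at h3
    cases a <;> simp at h3
  simp only [Pi.add_apply, Pi.smul_apply, Pi.sub_apply, smul_eq_mul, hb] at h3
  cases a
  · simp only [Bool.false_eq_true, if_false] at h3
    rw [decide_eq_false_iff_not]
    nlinarith [h3.1]
  · simp only [if_true] at h3
    rw [decide_eq_true_iff]
    nlinarith [h3.2]

theorem result : ¬ ∀ (d i : ℕ), 2 ≤ d → i ≤ d - 1 → ∀ A : Finset (Fin d → ℝ),
    (interior (convexHull ℝ (A : Set (Fin d → ℝ)))).Nonempty →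
    ∃ S : Finset (Fin d → ℝ), S.card ≤ 2 ^ (d - 1 - i) ∧
      (∀ s ∈ S, s ∉ convexHull ℝ (A : Set (Fin d → ℝ))) ∧
      ∀ b ∈ Xset (convexHull ℝ (A : Set (Fin d → ℝ))) i,
        ∃ s ∈ S, Illum (convexHull ℝ (A : Set (Fin d → ℝ))) s b := by
  intro h
  obtain ⟨S, hS, -, hI⟩ := h 4 1 (by norm_num) (by norm_num)
    (Fintype.piFinset (fun _ : Fin 4 => ({0, 1} : Finset ℝ))) (by
      rw [cube_eq]
      exact ⟨fun _ => 1 / 2, mem_int.2 (fun j => by norm_num)⟩)
  rw [cube_eq] at hI
  let g : (Fin 4 → ℝ) → Fin 4 → Bool := fun s j => decide (1 / 2 < s j)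
  have H : ∀ j k : Fin 4, j ≠ k → ∀ a b : Bool, ∃ s ∈ S.image g, s j = a ∧ s k = b := by
    intro j k hjk a b
    obtain ⟨s, hs, h2⟩ := hI _ (pt_X j k a b)
    exact ⟨g s, Finset.mem_image_of_mem _ hs, side h2 j a (by simp [pt]),
      side h2 k b (by simp [pt, hjk.symm])⟩
  have hc : (S.image g).card ≤ 4 := Finset.card_image_le.trans hS
  obtain ⟨w, hw, w0, w1⟩ := H 0 1 (by decide) false false
  obtain ⟨x, hx, x0, x1⟩ := H 0 1 (by decide) false true
  obtain ⟨y, hy, y0, y1⟩ := H 0 1 (by decide) true false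
  obtain ⟨z, hz, z0, z1⟩ := H 0 1 (by decide) true true
  have n1 : w ≠ x := fun e => by simp [e, x1] at w1
  have n2 : w ≠ y := fun e => by simp [e, y0] at w0
  have n3 : w ≠ z := fun e => by simp [e, z0] at w0
  have n4 : x ≠ y := fun e => by simp [e, y0] at x0
  have n5 : x ≠ z := fun e => by simp [e, z0] at x0
  have n6 : y ≠ z := fun e => by simp [e, z1] at y1
  have he : ({w, x, y, z} : Finset (Fin 4 → Bool)) = S.image g := by
    apply Finset.eq_of_subset_of_card_le
    · intro u hu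
      simp only [Finset.mem_insert, Finset.mem_singleton] at hu
      rcases hu with rfl | rfl | rfl | rfl <;> assumption
    · rw [Finset.card_insert_of_notMem (by simp [n1, n2, n3]),
        Finset.card_insert_of_notMem (by simp [n4, n5]), Finset.card_pair n6]
      exact hc
  refine key w w0 w1 x x0 x1 y y0 y1 z z0 z1 (fun j k hjk a b => ?_)
  obtain ⟨u, hu, h2⟩ := H j k hjk a b
  rw [← he] at hu
  simp only [Finset.mem_insert, Finset.mem_singleton] at hu
  rcases hu with rfl | rfl | rfl | rfl <;> tauto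

end Pool.Agent.Results.MP_22e672_co.Counter
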